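import Mathlib
import Pool.Agent.Lib.MP_be97d8_mp.Defs
import Pool.Agent.Lib.MP_be97d8_mp.UBad

namespace Pool.Agent.Results.MP_be97d8_mp.NoEigenvalue

open MeasureTheory ProbabilityTheory Filter Pool.Agent.Lib.MP_be97d8_mp

/-- For every absolutely continuous single-site law `P` on `[-1,1]` whose density is almost
everywhere positive on `[p,q]`, on every antitree with `log (s n) / n → ∞`, for every disorder
`lam > 0` and every interval `[a,b] ⊆ [lam p, lam q]` with `a < b`, almost surely the Anderson
Hamiltonian is not pure point in `[a,b]` and has no eigenvalue there. The uniform law on `[-1,1]`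
satisfies the hypotheses with `p = -1`, `q = 1`, and has mean `0` and variance `1/3`. -/
theorem result :
    (∀ (P : Measure ℝ) [IsProbabilityMeasure P], P (Set.Icc (-1) 1)ᶜ = 0 →
      P.AbsolutelyContinuous volume →
      ∀ p q : ℝ, (volume.restrict (Set.Icc p q)).AbsolutelyContinuous P →
      ∀ s : ℕ → ℕ, (∀ n, 0 < s n) → Tendsto (fun n => Real.log (s n) / n) atTop atTop →
        ∀ (E : Type) [NormedAddCommGroup E] [InnerProductSpace ℂ E] [CompleteSpace E]
          (e : HilbertBasis (Vtx s) ℂ E) (lam a b : ℝ),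
          0 < lam → a < b → lam * p ≤ a → b ≤ lam * q →
          ∀ᵐ v ∂(Measure.infinitePi fun _ : Vtx s => P),
            ∃ H : E →L[ℂ] E, IsAnderson s e lam v H ∧ IsSelfAdjoint H ∧ ¬ PurePointIn H a b ∧
              ∀ t ∈ Set.Icc a b, ∀ φ : E, H φ = (t : ℂ) • φ → φ = 0) ∧
    ∀ U : Measure ℝ, U = cond volume (Set.Icc (-1) 1) →
      IsProbabilityMeasure U ∧ U (Set.Icc (-1) 1)ᶜ = 0 ∧ U.AbsolutelyContinuous volume ∧
      (volume.restrict (Set.Icc (-1) 1)).AbsolutelyContinuous U ∧
      ∫ t, t ∂U = 0 ∧ variance id U = 1 / 3 := by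
  constructor
  · intro P _ hP hac p q hpq s hs hsup E _ _ _ e lam a b hlam hab ha hb
    have h1 : ∀ᵐ t ∂P, t ∈ Set.Icc (-1 : ℝ) 1 := hP
    exact ae_uniform e hs (superexp hsup hs) P (h1.mono fun t ht => abs_le.2 ht) hac hpq hlam hab
      ha hb
  · rintro U rfl
    have hv : volume (Set.Icc (-1 : ℝ) 1) = 2 := by rw [Real.volume_Icc]; norm_num
    have hint : ∀ f : ℝ → ℝ, ∫ t, f t ∂(cond volume (Set.Icc (-1) 1)) =
        2⁻¹ * ∫ t in (-1)..1, f t := by
      intro f
      rw [ProbabilityTheory.cond, integral_smul_measure, hv, integral_Icc_eq_integral_Ioc,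
        intervalIntegral.integral_of_le (by norm_num)]
      simp
    have hmean : ∫ t, t ∂(cond volume (Set.Icc (-1 : ℝ) 1)) = 0 := by
      rw [hint (fun t => t), integral_id]; norm_num
    refine ⟨cond_isProbabilityMeasure_of_finite (by simp [hv]) (by simp [hv]),
      ae_cond_mem measurableSet_Icc, cond_absolutelyContinuous, ?_, hmean, ?_⟩
    · exact Measure.absolutelyContinuous_smul (by simp [hv])
    · rw [variance_of_integral_eq_zero measurable_id.aemeasurable hmean]
      simp only [id]
      rw [hint (fun t => t ^ 2), integral_pow]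
      norm_num

end Pool.Agent.Results.MP_be97d8_mp.NoEigenvalue
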