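import Mathlib
import Pool.Agent.Lib.MP_be97d8_mp.Defs
import Pool.Agent.Lib.MP_be97d8_mp.AProb
import Pool.Agent.Lib.MP_be97d8_mp.ALaw

namespace Pool.Agent.Results.MP_be97d8_mp.NoLocalization

open MeasureTheory ProbabilityTheory Pool.Agent.Lib.MP_be97d8_mp
open scoped NNReal

/-- There is a single-site law `P` (support exactly `[-1,1]`, mean zero, variance in `(0,1]`, with
a bounded density) such that on every antitree with `∑ s n ^ (-1/2) < ∞`, for every interval
`[a,b]` with `a < b` and every sufficiently large disorder `lam`, almost surely the Anderson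
Hamiltonian is not pure point in `[a,b]`. -/
theorem result :
    ∃ P : Measure ℝ, IsProbabilityMeasure P ∧ P (Set.Icc (-1) 1)ᶜ = 0 ∧
      P.support = Set.Icc (-1) 1 ∧ ∫ t, t ∂P = 0 ∧
      0 < variance id P ∧ variance id P ≤ 1 ∧ (∃ C : ℝ≥0, P ≤ C • (volume : Measure ℝ)) ∧
      ∀ s : ℕ → ℕ, (∀ n, 0 < s n) → (Summable fun n => 1 / Real.sqrt (s n)) →
        ∀ (E : Type) [NormedAddCommGroup E] [InnerProductSpace ℂ E] [CompleteSpace E]
          (e : HilbertBasis (Vtx s) ℂ E) (a b : ℝ), a < b →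
          ∃ lam0 : ℝ, 0 < lam0 ∧ ∀ lam : ℝ, lam0 ≤ lam →
          ∀ᵐ v ∂(Measure.infinitePi fun _ : Vtx s => P),
            ∃ H : E →L[ℂ] E, IsAnderson s e lam v H ∧ IsSelfAdjoint H ∧ ¬ PurePointIn H a b := by
  refine ⟨PF, inferInstance, PF_support0, PF_support, PF_mean, PF_var.1, PF_var.2, PF_density, ?_⟩
  intro s hs hsum E _ _ _ e a b hab
  have hcd : (2 * a + b) / 3 < (a + 2 * b) / 3 := by linarith
  obtain ⟨lam0, -, h⟩ := fat hcd
  refine ⟨max lam0 1, lt_max_of_lt_right one_pos, fun lam hlam => ?_⟩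
  obtain ⟨G, h1, h2, h3, h4⟩ := h lam ((le_max_left _ _).trans hlam)
  refine ae_fat e hs hsum PF ae_PF (by linarith) hcd.le (by linarith) h1 h2 h3 fun x hx => ?_
  obtain ⟨h5, ⟨δ, h6, h7⟩, h8⟩ := h4 x hx
  exact PF_good ((le_max_right _ _).trans hlam) h5 h6 h7 h8

end Pool.Agent.Results.MP_be97d8_mp.NoLocalization
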